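import Pool.Agent.PJC.Stmts

/-!
# Squad PJC, row IND: independent children
-/

set_option autoImplicit false

open scoped BigOperators

noncomputable section

namespace Pool.Agent.PJC.H48

open Pool.Agent.PJC

theorem sq_le {c d : ℝ} (hc : |c| ≤ 1) (hd : |d| ≤ 1) :
    ((1 / 2) * (d - c)) ^ 2 ≤ (1 / 2) * (d - c) + (1 - d) := by
  have h1 := abs_le.1 hc
  have h2 := abs_le.1 hd
  nlinarith [mul_nonneg (sub_nonneg.2 h1.2) (sub_nonneg.2 h2.2),
    mul_nonneg (sub_nonneg.2 h1.2) (by linarith [h1.1] : (0:ℝ) ≤ c + 1),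
    mul_nonneg (sub_nonneg.2 h2.2) (by linarith [h2.1] : (0:ℝ) ≤ d + 1),
    mul_nonneg (by linarith [h1.1] : (0:ℝ) ≤ c + 1) (sub_nonneg.2 h2.2),
    mul_nonneg (by linarith [h1.1] : (0:ℝ) ≤ c + 1) (by linarith [h2.1] : (0:ℝ) ≤ d + 1),
    mul_nonneg (sub_nonneg.2 h1.2) (by linarith [h2.1] : (0:ℝ) ≤ d + 1)]

theorem ind : IndStmt := by
  intro n s S ε d h a
  have hw := h.w0 a
  have hin : ∀ i j, inner ℝ (s.V a i) (s.v a j) =
      (1 / 2) * (inner ℝ (s.t a) (s.v a j) - inner ℝ (s.t' a i) (s.v a j)) := by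
    intro i j
    rw [Side.V, real_inner_smul_left, inner_sub_left]
  have hx : ∀ i j, inner ℝ (s.V a i) (s.v a j) ^ 2 ≤
      inner ℝ (s.V a i) (s.v a j) + (1 - inner ℝ (s.t a) (s.v a j)) := by
    intro i j
    rw [hin]
    exact sq_le (h.pol _ (h.tS' a i) a j) (h.pol _ (h.tS a) a j)
  have hsumV : ∑ i, s.w a i • s.V a i = (s.e a / 2) • s.t a := by
    have e1 : ∑ i, s.w a i • s.V a i =
        (1 / 2 : ℝ) • ((∑ i, s.w a i) • s.t a - ∑ i, s.w a i • s.t' a i) := by
      rw [Finset.sum_smul, ← Finset.sum_sub_distrib, Finset.smul_sum]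
      refine Finset.sum_congr rfl fun i _ => ?_
      rw [Side.V, smul_comm, smul_sub]
    rw [e1, h.mean, h.w1, ← sub_smul, smul_smul]
    congr 1
    ring
  have hj : ∀ j, ∑ i, s.w a i * inner ℝ (s.V a i) (s.v a j) =
      s.e a / 2 * inner ℝ (s.t a) (s.v a j) := by
    intro j
    rw [← real_inner_smul_left, ← hsumV, sum_inner]
    refine Finset.sum_congr rfl fun i _ => ?_
    rw [real_inner_smul_left]
  have h1 : ∑ i, s.w a i * ∑ j, s.w a j * inner ℝ (s.V a i) (s.v a j) ≤ s.e a / 2 := by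
    have e2 : ∑ i, s.w a i * ∑ j, s.w a j * inner ℝ (s.V a i) (s.v a j) =
        ∑ j, s.w a j * (s.e a / 2 * inner ℝ (s.t a) (s.v a j)) := by
      simp_rw [Finset.mul_sum]
      rw [Finset.sum_comm]
      refine Finset.sum_congr rfl fun j _ => ?_
      rw [← hj, Finset.mul_sum]
      refine Finset.sum_congr rfl fun i _ => ?_
      ring
    rw [e2]
    calc ∑ j, s.w a j * (s.e a / 2 * inner ℝ (s.t a) (s.v a j))
        ≤ ∑ j, s.w a j * (s.e a / 2) := by
          refine Finset.sum_le_sum fun j _ => mul_le_mul_of_nonneg_left ?_ (hw j)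
          have := (abs_le.1 (h.pol _ (h.tS a) a j)).2
          have he : 0 ≤ s.e a / 2 := by linarith [h.e0 a]
          calc s.e a / 2 * inner ℝ (s.t a) (s.v a j) ≤ s.e a / 2 * 1 :=
                mul_le_mul_of_nonneg_left this he
            _ = s.e a / 2 := mul_one _
      _ = s.e a / 2 := by rw [← Finset.sum_mul, h.w1, one_mul]
  calc ∑ i, s.w a i * ∑ j, s.w a j * inner ℝ (s.V a i) (s.v a j) ^ 2
      ≤ ∑ i, s.w a i * ∑ j, s.w a j *
          (inner ℝ (s.V a i) (s.v a j) + (1 - inner ℝ (s.t a) (s.v a j))) := by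
        refine Finset.sum_le_sum fun i _ => mul_le_mul_of_nonneg_left ?_ (hw i)
        exact Finset.sum_le_sum fun j _ => mul_le_mul_of_nonneg_left (hx i j) (hw j)
    _ = ∑ i, s.w a i * ∑ j, s.w a j * inner ℝ (s.V a i) (s.v a j) +
          ∑ j, s.w a j * (1 - inner ℝ (s.t a) (s.v a j)) := by
        have : ∑ j, s.w a j * (1 - inner ℝ (s.t a) (s.v a j)) =
            ∑ i, s.w a i * ∑ j, s.w a j * (1 - inner ℝ (s.t a) (s.v a j)) := by
          rw [← Finset.sum_mul, h.w1, one_mul]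
        rw [this, ← Finset.sum_add_distrib]
        refine Finset.sum_congr rfl fun i _ => ?_
        rw [← mul_add, ← Finset.sum_add_distrib]
        congr 1
        refine Finset.sum_congr rfl fun j _ => ?_
        rw [mul_add]
    _ ≤ s.e a / 2 + s.k a := add_le_add h1 (h.e3 a)

end Pool.Agent.PJC.H48
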